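import Mathlib
import Pool.Agent.H476R3.DiagLift2

set_option autoImplicit false

/-! Finitely generated groups with torsion in the abelianization are not diagram groups. -/

namespace Pool.Agent.Y796.DG

open Pool.Agent.H476R3.Diag

universe u

theorem exists_char {A : Type} [AddCommGroup A] [AddGroup.FG A] {c : A} (hc : c ≠ 0) {N : ℕ}
    (hN : 0 < N) (h : N • c = 0) : ∃ (q : ℕ) (χ : A →+ ZMod q), χ c ≠ 0 := by
  classical
  obtain ⟨n, ι, _, p, hp, e, ⟨E⟩⟩ := AddCommGroup.equiv_free_prod_directSum_zmod A
  have h1 : (E c).1 = 0 := by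
    have h2 : N • (E c).1 = 0 := by
      have := congrArg Prod.fst (congrArg E h)
      rw [map_nsmul, map_zero] at this
      exact this
    ext i
    have h3 := DFunLike.congr_fun h2 i
    rw [Finsupp.smul_apply, Finsupp.zero_apply, nsmul_eq_mul] at h3
    rcases mul_eq_zero.1 h3 with h4 | h4
    · have : N = 0 := by exact_mod_cast h4
      omega
    · simpa using h4
  have h2 : (E c).2 ≠ 0 := by
    intro h2
    apply hc
    apply E.injective
    rw [map_zero]
    exact Prod.ext h1 h2
  obtain ⟨i, hi⟩ := DFinsupp.ne_iff.1 h2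
  refine ⟨p i ^ e i, ((DFinsupp.evalAddMonoidHom i).comp (AddMonoidHom.snd _ _)).comp
    E.toAddMonoidHom, ?_⟩
  exact hi

/-- A finitely generated group with torsion in the abelianization is not a retract of a diagram
group. -/
theorem not_retract {G : Type} [Group G] [Group.FG G] {c : G} (hc : c ∉ commutator G) {N : ℕ}
    (hN : 0 < N) (h : c ^ N ∈ commutator G) {α : Type u} {R : Set (List α × List α)}
    (hR : ∀ r ∈ R, r.1 ≠ [] ∧ r.2 ≠ []) (w : List α) (ι : G →* DiagramGroup R w)
    (ρ : DiagramGroup R w →* G) (hr : ρ.comp ι = MonoidHom.id G) : False := by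
  have : Group.FG (Abelianization G) :=
    Group.fg_of_surjective (f := Abelianization.of) (QuotientGroup.mk_surjective)
  have hker : ∀ x : G, Abelianization.of x = 1 ↔ x ∈ commutator G := by
    intro x
    rw [← MonoidHom.mem_ker, Abelianization.ker_of]
  obtain ⟨q, χ, hχ⟩ := exists_char (A := Additive (Abelianization G))
    (c := Additive.ofMul (Abelianization.of c)) (N := N) (by
      intro h0
      exact hc ((hker c).1 h0)) hN (by
      have := (hker _).2 h
      rw [map_pow] at this
      exact this)
  let χ' : G →* Multiplicative (ZMod q) :=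
    (AddMonoidHom.toMultiplicativeRight χ).comp Abelianization.of
  obtain ⟨ψ, hψ⟩ := exists_lift hR w q (χ'.comp ρ)
  let Ψ : G →* Multiplicative ℤ := ψ.comp ι
  have h1 : Ψ (c ^ N) = 1 := by
    have : commutator G ≤ Ψ.ker := Abelianization.commutator_subset_ker Ψ
    exact this h
  have h2 : (N : ℤ) * (Ψ c).toAdd = 0 := by
    rw [map_pow] at h1
    have := congrArg Multiplicative.toAdd h1
    rw [toAdd_pow, toAdd_one, nsmul_eq_mul] at this
    exact this
  have h3 : (Ψ c).toAdd = 0 := by
    rcases mul_eq_zero.1 h2 with h3 | h3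
    · have : N = 0 := by exact_mod_cast h3
      omega
    · exact h3
  have h4 := hψ (ι c)
  have h5 : ρ (ι c) = c := DFunLike.congr_fun hr c
  change (((Ψ c).toAdd : ℤ) : ZMod q) = (χ' (ρ (ι c))).toAdd at h4
  rw [h3, h5, Int.cast_zero] at h4
  exact hχ h4.symm

end Pool.Agent.Y796.DG
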