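import Mathlib

set_option autoImplicit false

/-! The wreath product `ℤ ≀ ℤ` and its subgroups of finite index. -/

namespace Pool.Agent.Y796.DG

open scoped commutatorElement

/-- translation of finitely supported functions: `sh n f j = f (j - n)` -/
noncomputable def sh (n : ℤ) : (ℤ →₀ ℤ) ≃+ (ℤ →₀ ℤ) := Finsupp.domCongr (Equiv.addRight n)

theorem sh_apply (n : ℤ) (f : ℤ →₀ ℤ) (j : ℤ) : sh n f j = f (j - n) := by
  simp [sh, Finsupp.equivMapDomain_apply, sub_eq_add_neg]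

theorem sh_zero (f : ℤ →₀ ℤ) : sh 0 f = f := by
  ext j; simp [sh_apply]

theorem sh_sh (n m : ℤ) (f : ℤ →₀ ℤ) : sh n (sh m f) = sh (n + m) f := by
  ext j
  simp only [sh_apply]
  congr 1; ring

theorem sh_single (n i z : ℤ) : sh n (Finsupp.single i z) = Finsupp.single (i + n) z := by
  simp [sh, Finsupp.equivMapDomain_single]

/-- the sum of the values of a finitely supported function -/
noncomputable def tot : (ℤ →₀ ℤ) →+ ℤ :=
  Finsupp.liftAddHom (fun _ : ℤ => AddMonoidHom.id ℤ)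

theorem tot_single (i z : ℤ) : tot (Finsupp.single i z) = z := by
  simp [tot]

theorem tot_sh (n : ℤ) (f : ℤ →₀ ℤ) : tot (sh n f) = tot f := by
  have : tot.comp (sh n).toAddMonoidHom = tot := by
    apply Finsupp.addHom_ext
    intro i x
    change tot (sh n (Finsupp.single i x)) = _
    rw [sh_single, tot_single, tot_single]
  exact DFunLike.congr_fun this f

/-- **The wreath product `ℤ ≀ ℤ`**: pairs `(f, k)` of a finitely supported function `f : ℤ → ℤ` and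
an integer `k`, with the multiplication `(f, k) (g, l) = (f + sh k g, k + l)`, where
`sh k g j = g (j - k)`. -/
@[ext] structure ZwrZ where
  /-- the finitely supported function -/
  f : ℤ →₀ ℤ
  /-- the integer -/
  k : ℤ

namespace ZwrZ

noncomputable instance : Mul ZwrZ := ⟨fun u v => ⟨u.f + sh u.k v.f, u.k + v.k⟩⟩
noncomputable instance : One ZwrZ := ⟨⟨0, 0⟩⟩
noncomputable instance : Inv ZwrZ := ⟨fun u => ⟨-(sh (-u.k) u.f), -u.k⟩⟩

theorem mul_f (u v : ZwrZ) : (u * v).f = u.f + sh u.k v.f := rfl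
theorem mul_k (u v : ZwrZ) : (u * v).k = u.k + v.k := rfl
theorem one_f : (1 : ZwrZ).f = 0 := rfl
theorem one_k : (1 : ZwrZ).k = 0 := rfl
theorem inv_f (u : ZwrZ) : (u⁻¹).f = -(sh (-u.k) u.f) := rfl
theorem inv_k (u : ZwrZ) : (u⁻¹).k = -u.k := rfl

protected theorem mul_assoc' (u v w : ZwrZ) : u * v * w = u * (v * w) := by
  ext1
  · simp only [mul_f, mul_k, map_add, sh_sh, add_assoc]
  · simp only [mul_k, add_assoc]

protected theorem one_mul' (u : ZwrZ) : 1 * u = u := by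
  ext1
  · simp only [mul_f, one_f, one_k, sh_zero, zero_add]
  · simp only [mul_k, one_k, zero_add]

protected theorem inv_mul' (u : ZwrZ) : u⁻¹ * u = 1 := by
  ext1
  · simp only [mul_f, inv_f, inv_k, one_f, neg_add_cancel]
  · simp only [mul_k, inv_k, one_k, neg_add_cancel]

noncomputable instance : Group ZwrZ :=
  Group.ofLeftAxioms ZwrZ.mul_assoc' ZwrZ.one_mul' ZwrZ.inv_mul'

theorem pow_k (u : ZwrZ) (N : ℕ) : (u ^ N).k = N * u.k := by
  induction N with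
  | zero => simp [one_k]
  | succ N ih => rw [pow_succ, mul_k, ih]; push_cast; ring

theorem base_pow (g : ℤ →₀ ℤ) (N : ℕ) : (⟨g, 0⟩ : ZwrZ) ^ N = ⟨N • g, 0⟩ := by
  induction N with
  | zero => rw [pow_zero, zero_smul]; rfl
  | succ N ih =>
    rw [pow_succ, ih]
    ext1
    · rw [mul_f, sh_zero, succ_nsmul]
    · rw [mul_k, add_zero]

/-- the homomorphism to `ℤ` -/
noncomputable def kHom : ZwrZ →* Multiplicative ℤ where
  toFun u := Multiplicative.ofAdd u.k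
  map_one' := rfl
  map_mul' _ _ := rfl

theorem zpow_k (u : ZwrZ) (a : ℤ) : (u ^ a).k = a * u.k := by
  have h := map_zpow kHom u a
  have h2 := congrArg Multiplicative.toAdd h
  rw [toAdd_zpow] at h2
  simpa [kHom] using h2

/-- the commutator of two elements -/
theorem comm_eq (u v : ZwrZ) : ⁅u, v⁆ = ⟨u.f + sh u.k v.f - (v.f + sh v.k u.f), 0⟩ := by
  rw [commutatorElement_def, mul_inv_eq_iff_eq_mul, mul_inv_eq_iff_eq_mul]
  ext1
  · simp only [mul_f, mul_k, sh_zero, zero_add]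
    abel
  · simp only [mul_k]
    ring

theorem comm_base (u : ZwrZ) (g : ℤ →₀ ℤ) : ⁅u, (⟨g, 0⟩ : ZwrZ)⁆ = ⟨sh u.k g - g, 0⟩ := by
  rw [comm_eq]
  ext1
  · simp only [sh_zero]
    abel
  · rfl

/-- conjugation on the base -/
theorem conj_base (u : ZwrZ) (g : ℤ →₀ ℤ) : u * ⟨g, 0⟩ * u⁻¹ = ⟨sh u.k g, 0⟩ := by
  rw [mul_inv_eq_iff_eq_mul]
  ext1
  · simp only [mul_f, sh_zero]
    abel
  · simp only [mul_k]
    ring

variable (K : Subgroup ZwrZ)

/-- the intersection with the base -/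
def base : AddSubgroup (ℤ →₀ ℤ) where
  carrier := {g | (⟨g, 0⟩ : ZwrZ) ∈ K}
  add_mem' := by
    intro g h hg hh
    have := K.mul_mem hg hh
    have e : (⟨g, 0⟩ : ZwrZ) * ⟨h, 0⟩ = ⟨g + h, 0⟩ := by
      ext1
      · simp only [mul_f, sh_zero]
      · simp only [mul_k, add_zero]
    rw [e] at this
    exact this
  zero_mem' := K.one_mem
  neg_mem' := by
    intro g hg
    have := K.inv_mem hg
    have e : (⟨g, 0⟩ : ZwrZ)⁻¹ = ⟨-g, 0⟩ := by
      ext1
      · simp only [inv_f, neg_zero, sh_zero]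
      · simp only [inv_k, neg_zero]
    rw [e] at this
    exact this

variable {K}

theorem mem_base {g : ℤ →₀ ℤ} : g ∈ base K ↔ (⟨g, 0⟩ : ZwrZ) ∈ K := Iff.rfl

theorem sh_mem_base {u : ZwrZ} (hu : u ∈ K) {g : ℤ →₀ ℤ} (hg : g ∈ base K) : sh u.k g ∈ base K := by
  rw [mem_base, ← conj_base]
  exact K.mul_mem (K.mul_mem hu hg) (K.inv_mem hu)

/-- `(x ^ (m a) - 1) g` lies in `(x ^ m - 1) J` -/
theorem geom {κ : ZwrZ} (hκ : κ ∈ K) (a : ℤ) : ∀ g ∈ base K, ∃ j ∈ base K,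
    sh (a * κ.k) g - g = sh κ.k j - j := by
  induction a using Int.induction_on with
  | zero =>
    intro g _
    refine ⟨0, (base K).zero_mem, ?_⟩
    rw [zero_mul, sh_zero, map_zero, sub_self, sub_self]
  | succ a ih =>
    intro g hg
    obtain ⟨j, hj, e⟩ := ih (sh κ.k g) (sh_mem_base hκ hg)
    refine ⟨j + g, (base K).add_mem hj hg, ?_⟩
    have e1 : sh ((a + 1) * κ.k) g = sh (a * κ.k) (sh κ.k g) := by
      rw [sh_sh]; congr 2; ring
    rw [e1, map_add]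
    have e2 : sh (a * κ.k) (sh κ.k g) - g = (sh κ.k j - j) + (sh κ.k g - g) := by
      rw [← e]; abel
    rw [e2]; abel
  | pred a ih =>
    intro g hg
    have hg' : sh (-κ.k) g ∈ base K := by
      have := sh_mem_base (K.inv_mem hκ) hg
      exact this
    obtain ⟨j, hj, e⟩ := ih (sh (-κ.k) g) hg'
    refine ⟨j - sh (-κ.k) g, (base K).sub_mem hj hg', ?_⟩
    have e1 : sh ((-a - 1) * κ.k) g = sh (-a * κ.k) (sh (-κ.k) g) := by
      rw [sh_sh]; congr 2; ring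
    have e3 : sh κ.k (sh (-κ.k) g) = g := by
      rw [sh_sh, add_neg_cancel, sh_zero]
    rw [e1, map_sub, e3]
    have e2 : sh (-a * κ.k) (sh (-κ.k) g) - g = (sh κ.k j - j) + (sh (-κ.k) g - g) := by
      rw [← e]; abel
    rw [e2]; abel

/-- The commutators of `K` lie in `(x ^ m - 1) J`. -/
theorem comm_mem {κ : ZwrZ} (hκ : κ ∈ K) (hm : ∀ u ∈ K, ∃ a : ℤ, u.k = a * κ.k) {u v : ZwrZ}
    (hu : u ∈ K) (hv : v ∈ K) : ∃ j ∈ base K, ⁅u, v⁆ = ⟨sh κ.k j - j, 0⟩ := by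
  obtain ⟨a, ha⟩ := hm u hu
  obtain ⟨b, hb⟩ := hm v hv
  -- write `u = u₀ κ ^ a`, `v = v₀ κ ^ b`
  have hu0 : u.f - (κ ^ a).f ∈ base K := by
    rw [mem_base]
    have : (⟨u.f - (κ ^ a).f, 0⟩ : ZwrZ) = u * (κ ^ a)⁻¹ := by
      rw [eq_mul_inv_iff_mul_eq]
      ext1
      · simp only [mul_f, sh_zero]; abel
      · simp only [mul_k, zpow_k, ha]; ring
    rw [this]
    exact K.mul_mem hu (K.inv_mem (K.zpow_mem hκ a))
  have hv0 : v.f - (κ ^ b).f ∈ base K := by
    rw [mem_base]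
    have : (⟨v.f - (κ ^ b).f, 0⟩ : ZwrZ) = v * (κ ^ b)⁻¹ := by
      rw [eq_mul_inv_iff_mul_eq]
      ext1
      · simp only [mul_f, sh_zero]; abel
      · simp only [mul_k, zpow_k, hb]; ring
    rw [this]
    exact K.mul_mem hv (K.inv_mem (K.zpow_mem hκ b))
  obtain ⟨i, hi, ei⟩ := geom hκ b _ hu0
  obtain ⟨j, hj, ej⟩ := geom hκ a _ hv0
  refine ⟨j - i, (base K).sub_mem hj hi, ?_⟩
  rw [comm_eq]
  have hc : ⁅κ ^ a, κ ^ b⁆ = (1 : ZwrZ) := by
    rw [commutatorElement_eq_one_iff_mul_comm, ← zpow_add, ← zpow_add, add_comm]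
  rw [comm_eq] at hc
  have hc' := congrArg ZwrZ.f hc
  simp only [one_f, zpow_k] at hc'
  ext1
  · simp only
    rw [ha, hb]
    rw [map_sub] at ei ej ⊢
    have h1 : sh (b * κ.k) u.f - u.f = (sh κ.k i - i) + (sh (b * κ.k) (κ ^ a).f - (κ ^ a).f) := by
      rw [← ei]; abel
    have h2 : sh (a * κ.k) v.f - v.f = (sh κ.k j - j) + (sh (a * κ.k) (κ ^ b).f - (κ ^ b).f) := by
      rw [← ej]; abel
    have h3 : u.f + sh (a * κ.k) v.f - (v.f + sh (b * κ.k) u.f) =
        (sh (a * κ.k) v.f - v.f) - (sh (b * κ.k) u.f - u.f) := by abel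
    rw [h3, h1, h2]
    have h4 : sh κ.k j - j + (sh (a * κ.k) (κ ^ b).f - (κ ^ b).f) -
        (sh κ.k i - i + (sh (b * κ.k) (κ ^ a).f - (κ ^ a).f)) =
        (sh κ.k j - sh κ.k i - (j - i)) +
        ((κ ^ a).f + sh (a * κ.k) (κ ^ b).f - ((κ ^ b).f + sh (b * κ.k) (κ ^ a).f)) := by abel
    rw [h4, hc', add_zero]
  · rfl

end ZwrZ

end Pool.Agent.Y796.DG
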