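import Mathlib
import Pool.Agent.Y796.DG.A

set_option autoImplicit false

/-! Torsion in the abelianization of the subgroups of finite index of `ℤ ≀ ℤ`. -/

namespace Pool.Agent.Y796.DG

open scoped commutatorElement

namespace ZwrZ

/-- the subgroup `(x ^ m - 1) J` -/
def L (K : Subgroup ZwrZ) (m : ℤ) : Subgroup ZwrZ where
  carrier := {u | ∃ j ∈ base K, u = ⟨sh m j - j, 0⟩}
  mul_mem' := by
    rintro u v ⟨i, hi, rfl⟩ ⟨j, hj, rfl⟩
    refine ⟨i + j, (base K).add_mem hi hj, ?_⟩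
    ext1
    · simp only [mul_f, sh_zero, map_add]
      abel
    · simp only [mul_k, add_zero]
  one_mem' := ⟨0, (base K).zero_mem, by
    ext1
    · simp only [one_f, map_zero, sub_self]
    · rfl⟩
  inv_mem' := by
    rintro u ⟨i, hi, rfl⟩
    refine ⟨-i, (base K).neg_mem hi, ?_⟩
    ext1
    · simp only [inv_f, neg_zero, sh_zero, map_neg]
      abel
    · simp only [inv_k, neg_zero]

variable {K : Subgroup ZwrZ}

theorem commutator_le_L {κ : ZwrZ} (hκ : κ ∈ K) (hm : ∀ u ∈ K, ∃ a : ℤ, u.k = a * κ.k) :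
    ⁅K, K⁆ ≤ L K κ.k := by
  rw [Subgroup.commutator_le]
  intro u hu v hv
  exact comm_mem hκ hm hu hv

theorem mem_comm_of {K : Subgroup ZwrZ} {x : K} (h : x ∈ commutator K) : (x : ZwrZ) ∈ ⁅K, K⁆ := by
  rw [← Subgroup.map_subtype_commutator]
  exact ⟨x, h, rfl⟩

/-- a translation by a nonzero amount has no nonzero fixed vector -/
theorem sh_fixed {m : ℤ} (hm : m ≠ 0) {f : ℤ →₀ ℤ} (h : sh m f = f) : f = 0 := by
  by_contra hf
  obtain ⟨j, hj⟩ := Finsupp.ne_iff.1 hf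
  have h1 : ∀ i : ℕ, f (j - i * m) = f j := by
    intro i
    induction i with
    | zero => simp
    | succ i ih =>
      rw [← ih]
      conv_rhs => rw [← h]
      rw [sh_apply]
      congr 1; push_cast; ring
  have h2 : Function.Injective (fun i : ℕ => j - i * m) := by
    intro a b hab
    have h3 : (a : ℤ) * m = b * m := by
      have : j - (a : ℤ) * m = j - b * m := hab
      linarith
    exact_mod_cast mul_right_cancel₀ hm h3
  have h3 : Set.Infinite (Set.range (fun i : ℕ => j - i * m)) := Set.infinite_range_of_injective h2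
  apply h3
  refine f.support.finite_toSet.subset ?_
  rintro _ ⟨i, rfl⟩
  rw [Finset.mem_coe, Finsupp.mem_support_iff]
  simp only
  rw [h1]
  simpa using hj

/-- the projection of a subgroup of finite index is generated by the image of one element -/
theorem exists_gen (hK : K.index ≠ 0) : ∃ κ ∈ K, κ.k ≠ 0 ∧ ∀ u ∈ K, ∃ a : ℤ, u.k = a * κ.k := by
  let P : AddSubgroup ℤ :=
    { carrier := {z | ∃ u ∈ K, u.k = z}
      add_mem' := by
        rintro _ _ ⟨u, hu, rfl⟩ ⟨v, hv, rfl⟩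
        exact ⟨u * v, K.mul_mem hu hv, rfl⟩
      zero_mem' := ⟨1, K.one_mem, rfl⟩
      neg_mem' := by
        rintro _ ⟨u, hu, rfl⟩
        exact ⟨u⁻¹, K.inv_mem hu, rfl⟩ }
  obtain ⟨m, hm⟩ := Int.subgroup_cyclic P
  have hmP : m ∈ P := by
    rw [hm]
    exact AddSubgroup.subset_closure rfl
  obtain ⟨κ, hκ, hk⟩ := hmP
  have h1 : ∀ u ∈ K, ∃ a : ℤ, u.k = a * κ.k := by
    intro u hu
    have : u.k ∈ P := ⟨u, hu, rfl⟩
    rw [hm, AddSubgroup.mem_closure_singleton] at this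
    obtain ⟨a, ha⟩ := this
    exact ⟨a, by rw [← ha, hk, smul_eq_mul]⟩
  refine ⟨κ, hκ, ?_, h1⟩
  intro h0
  obtain ⟨N, hN, -, hN2⟩ := Subgroup.exists_pow_mem_of_index_ne_zero hK (⟨0, 1⟩ : ZwrZ)
  obtain ⟨a, ha⟩ := h1 _ hN2
  rw [h0, mul_zero, pow_k] at ha
  simp only [mul_one] at ha
  have : N = 0 := by exact_mod_cast ha
  omega

theorem finite_base (hK : K.index ≠ 0) : Finite ((ℤ →₀ ℤ) ⧸ base K) := by
  have : Finite (ZwrZ ⧸ K) := by
    have : K.FiniteIndex := ⟨hK⟩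
    infer_instance
  let F : ((ℤ →₀ ℤ) ⧸ base K) → ZwrZ ⧸ K := fun q => QuotientGroup.mk (⟨q.out, 0⟩ : ZwrZ)
  refine Finite.of_injective F ?_
  intro p q h
  have h1 : (⟨p.out, 0⟩ : ZwrZ)⁻¹ * ⟨q.out, 0⟩ ∈ K := QuotientGroup.eq.1 h
  have h2 : -p.out + q.out ∈ base K := by
    rw [mem_base]
    have e : (⟨-p.out + q.out, 0⟩ : ZwrZ) = (⟨p.out, 0⟩ : ZwrZ)⁻¹ * ⟨q.out, 0⟩ := by
      ext1
      · simp only [mul_f, inv_f, inv_k, neg_zero, sh_zero]
      · simp only [mul_k, inv_k, neg_zero, add_zero]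
    rw [e]
    exact h1
  rw [← QuotientAddGroup.out_eq' p, ← QuotientAddGroup.out_eq' q]
  exact QuotientAddGroup.eq.2 h2

/-- **Torsion in the abelianization of `K`** for subgroups of finite index consisting of elements
whose total sum is divisible by `n ≥ 2`. -/
theorem exists_torsion (hK : K.index ≠ 0) {n : ℕ} (hn : 2 ≤ n)
    (hle : ∀ u ∈ K, (n : ℤ) ∣ tot u.f) :
    ∃ c : K, c ∉ commutator K ∧ ∃ N : ℕ, 0 < N ∧ c ^ N ∈ commutator K := by
  obtain ⟨κ, hκ, hκ0, hgen⟩ := exists_gen hK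
  have := finite_base hK
  let M : (ℤ →₀ ℤ) →+ (ℤ →₀ ℤ) := (sh κ.k).toAddMonoidHom - AddMonoidHom.id _
  have hMJ : base K ≤ (base K).comap M := by
    intro g hg
    exact (base K).sub_mem (sh_mem_base hκ hg) hg
  let Mq : (ℤ →₀ ℤ) ⧸ base K →+ (ℤ →₀ ℤ) ⧸ base K := QuotientAddGroup.map _ _ M hMJ
  have hns : ¬ Function.Surjective Mq := by
    intro hs
    obtain ⟨q, hq⟩ := hs (QuotientAddGroup.mk (Finsupp.single 0 1))
    obtain ⟨g, rfl⟩ := QuotientAddGroup.mk_surjective q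
    have h1 : (QuotientAddGroup.mk (M g) : (ℤ →₀ ℤ) ⧸ base K) =
      QuotientAddGroup.mk (Finsupp.single 0 1) := hq
    have h2 : -(M g) + Finsupp.single 0 1 ∈ base K := QuotientAddGroup.eq.1 h1
    have h3 := hle _ (mem_base.1 h2)
    have h4 : tot (M g) = 0 := by
      change tot (sh κ.k g - g) = 0
      rw [map_sub, tot_sh, sub_self]
    simp only [map_add, map_neg, h4, tot_single, neg_zero, zero_add] at h3
    have h5 := Int.le_of_dvd (by norm_num) h3
    omega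
  have hni : ¬ Function.Injective Mq := fun h => hns (Finite.injective_iff_surjective.1 h)
  rw [injective_iff_map_eq_zero] at hni
  push Not at hni
  obtain ⟨q, hq, hq0⟩ := hni
  obtain ⟨r, rfl⟩ := QuotientAddGroup.mk_surjective q
  have hr : r ∉ base K := fun h => hq0 ((QuotientAddGroup.eq_zero_iff r).2 h)
  have hMr : sh κ.k r - r ∈ base K := (QuotientAddGroup.eq_zero_iff _).1 hq
  obtain ⟨N, hN, -, hNr⟩ := Subgroup.exists_pow_mem_of_index_ne_zero hK (⟨r, 0⟩ : ZwrZ)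
  rw [base_pow] at hNr
  refine ⟨⟨⟨sh κ.k r - r, 0⟩, hMr⟩, ?_, N, hN, ?_⟩
  · intro hc
    obtain ⟨j, hj, e⟩ := commutator_le_L hκ hgen (mem_comm_of hc)
    have e1 : sh κ.k r - r = sh κ.k j - j := congrArg ZwrZ.f e
    have e2 : r - j = 0 := by
      apply sh_fixed hκ0
      rw [map_sub]
      have : sh κ.k r - sh κ.k j = (sh κ.k r - r) - (sh κ.k j - j) + (r - j) := by abel
      rw [this, e1, sub_self, zero_add]
    rw [sub_eq_zero] at e2
    exact hr (e2 ▸ hj)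
  · have e : (⟨⟨sh κ.k r - r, 0⟩, hMr⟩ : K) ^ N = ⁅(⟨κ, hκ⟩ : K), (⟨⟨N • r, 0⟩, hNr⟩ : K)⁆ := by
      apply Subtype.ext
      rw [SubmonoidClass.coe_pow]
      change (⟨sh κ.k r - r, 0⟩ : ZwrZ) ^ N = ⁅κ, (⟨N • r, 0⟩ : ZwrZ)⁆
      rw [base_pow, comm_base, map_nsmul, smul_sub]
    rw [e]
    exact Subgroup.commutator_mem_commutator (Subgroup.mem_top _) (Subgroup.mem_top _)

end ZwrZ

end Pool.Agent.Y796.DG
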