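import Mathlib
import Pool.Agent.Y796.DG.B

set_option autoImplicit false

/-! The subgroups `H_n` of `ℤ ≀ ℤ`. -/

namespace Pool.Agent.Y796.DG

open scoped commutatorElement

namespace ZwrZ

/-- the total sum modulo `n` as a homomorphism -/
noncomputable def totHom (n : ℕ) : ZwrZ →* Multiplicative (ZMod n) where
  toFun u := Multiplicative.ofAdd ((tot u.f : ℤ) : ZMod n)
  map_one' := by
    rw [one_f, map_zero, Int.cast_zero]; rfl
  map_mul' u v := by
    rw [mul_f, map_add, tot_sh, Int.cast_add]; rfl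

theorem Hn_mul {n : ℕ} {u v : ZwrZ} (hu : (n : ℤ) ∣ u.f.sum (fun _ z => z))
    (hv : (n : ℤ) ∣ v.f.sum (fun _ z => z)) : (n : ℤ) ∣ (u * v).f.sum (fun _ z => z) := by
  change (n : ℤ) ∣ tot (u * v).f
  rw [mul_f, map_add, tot_sh]
  exact dvd_add hu hv

theorem Hn_one {n : ℕ} : (n : ℤ) ∣ (1 : ZwrZ).f.sum (fun _ z => z) := by
  change (n : ℤ) ∣ tot (1 : ZwrZ).f
  rw [one_f, map_zero]
  exact dvd_zero _

theorem Hn_inv {n : ℕ} {u : ZwrZ} (hu : (n : ℤ) ∣ u.f.sum (fun _ z => z)) :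
    (n : ℤ) ∣ (u⁻¹).f.sum (fun _ z => z) := by
  change (n : ℤ) ∣ tot (u⁻¹).f
  rw [inv_f, map_neg, tot_sh, dvd_neg]
  exact hu

/-- **The subgroup `H_n`** of `ℤ ≀ ℤ`: the pairs `(f, k)` such that `n` divides the sum of the values
of `f`. -/
def Hn (n : ℕ) : Subgroup ZwrZ where
  carrier := {u | (n : ℤ) ∣ u.f.sum (fun _ z => z)}
  mul_mem' := Hn_mul
  one_mem' := Hn_one
  inv_mem' := Hn_inv

theorem mem_Hn {n : ℕ} {u : ZwrZ} : u ∈ Hn n ↔ (n : ℤ) ∣ tot u.f := Iff.rfl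

theorem Hn_eq (n : ℕ) : Hn n = (totHom n).ker := by
  ext u
  rw [mem_Hn, MonoidHom.mem_ker, ← ZMod.intCast_zmod_eq_zero_iff_dvd]
  exact Iff.rfl

instance (n : ℕ) : (Hn n).Normal := by
  rw [Hn_eq]; infer_instance

theorem index_Hn {n : ℕ} (hn : n ≠ 0) : (Hn n).index = n := by
  have : NeZero n := ⟨hn⟩
  rw [Hn_eq, Subgroup.index_ker]
  have hs : Function.Surjective (totHom n) := by
    intro z
    refine ⟨⟨Finsupp.single 0 ((z.toAdd).val : ℤ), 0⟩, ?_⟩
    change Multiplicative.ofAdd ((tot (Finsupp.single 0 ((z.toAdd).val : ℤ)) : ℤ) : ZMod n) = z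
    rw [tot_single, Int.cast_natCast, ZMod.natCast_zmod_val]
    rfl
  rw [MonoidHom.range_eq_top.2 hs, Subgroup.card_top]
  change Nat.card (ZMod n) = n
  rw [Nat.card_eq_fintype_card, ZMod.card]

theorem fg : Group.FG ZwrZ := by
  rw [Group.fg_iff]
  refine ⟨{(⟨Finsupp.single 0 1, 0⟩ : ZwrZ), (⟨0, 1⟩ : ZwrZ)}, ?_, by simp⟩
  rw [eq_top_iff]
  set S : Subgroup ZwrZ := Subgroup.closure
    {(⟨Finsupp.single 0 1, 0⟩ : ZwrZ), (⟨0, 1⟩ : ZwrZ)} with hS
  have ha : (⟨Finsupp.single 0 1, 0⟩ : ZwrZ) ∈ S := Subgroup.subset_closure (by simp)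
  have ht : (⟨0, 1⟩ : ZwrZ) ∈ S := Subgroup.subset_closure (by simp)
  have htk : ∀ k : ℤ, (⟨0, 1⟩ : ZwrZ) ^ k = ⟨0, k⟩ := by
    intro k
    induction k using Int.induction_on with
    | zero => rw [zpow_zero]; rfl
    | succ k ih =>
      rw [zpow_add_one, ih]
      ext1
      · simp only [mul_f, map_zero, add_zero]
      · rfl
    | pred k ih =>
      rw [zpow_sub_one, ih]
      ext1
      · simp only [mul_f, inv_f, map_zero, neg_zero, add_zero]
      · rfl
  have hb : ∀ f : ℤ →₀ ℤ, (⟨f, 0⟩ : ZwrZ) ∈ S := by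
    intro f
    change f ∈ base S
    induction f using Finsupp.induction_linear with
    | zero => exact (base S).zero_mem
    | add f g hf hg => exact (base S).add_mem hf hg
    | single i z =>
      have h1 : Finsupp.single 0 1 ∈ base S := ha
      have h2 : Finsupp.single i 1 ∈ base S := by
        have h3 := sh_mem_base (K := S) (S.zpow_mem ht i) h1
        rw [htk, sh_single, zero_add] at h3
        exact h3
      have h3 := (base S).zsmul_mem h2 z
      rw [Finsupp.smul_single, smul_eq_mul, mul_one] at h3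
      exact h3
  intro u _
  have : u = ⟨u.f, 0⟩ * (⟨0, 1⟩ : ZwrZ) ^ u.k := by
    rw [htk]
    ext1
    · simp only [mul_f, map_zero, add_zero]
    · simp only [mul_k, zero_add]
  rw [this]
  exact S.mul_mem (hb _) (S.zpow_mem ht _)

/-- a function with sum zero is of the form `(x - 1) q` -/
theorem exists_of_tot (f : ℤ →₀ ℤ) : ∃ q : ℤ →₀ ℤ, f - Finsupp.single 0 (tot f) = sh 1 q - q := by
  induction f using Finsupp.induction_linear with
  | zero => exact ⟨0, by simp⟩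
  | add f g hf hg =>
    obtain ⟨q, hq⟩ := hf
    obtain ⟨q', hq'⟩ := hg
    refine ⟨q + q', ?_⟩
    rw [map_add, map_add, Finsupp.single_add]
    have : f + g - (Finsupp.single 0 (tot f) + Finsupp.single 0 (tot g)) =
      (f - Finsupp.single 0 (tot f)) + (g - Finsupp.single 0 (tot g)) := by abel
    rw [this, hq, hq']; abel
  | single i z =>
    obtain ⟨j, -, hj⟩ := geom (K := ⊤) (κ := ⟨0, 1⟩) (Subgroup.mem_top _) i
      (Finsupp.single 0 z) (mem_base.2 (Subgroup.mem_top _))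
    simp only [mul_one] at hj
    refine ⟨j, ?_⟩
    rw [tot_single, ← hj, sh_single, zero_add]

theorem t_mem (n : ℕ) : (⟨0, 1⟩ : ZwrZ) ∈ Hn n := by
  rw [mem_Hn, map_zero]; exact dvd_zero _

theorem comm_Hn {n : ℕ} {x : Hn n} (h : x ∈ commutator (Hn n)) :
    ∃ j : ℤ →₀ ℤ, (n : ℤ) ∣ tot j ∧ (x : ZwrZ) = ⟨sh 1 j - j, 0⟩ := by
  have h1 := commutator_le_L (K := Hn n) (κ := ⟨0, 1⟩) (t_mem n)
    (fun u _ => ⟨u.k, by simp⟩) (mem_comm_of h)
  obtain ⟨j, hj, e⟩ := h1
  exact ⟨j, hj, e⟩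

theorem comm_Hn' {n : ℕ} {x : Hn n} {j : ℤ →₀ ℤ} (hj : (n : ℤ) ∣ tot j)
    (e : (x : ZwrZ) = ⟨sh 1 j - j, 0⟩) : x ∈ commutator (Hn n) := by
  have e2 : x = ⁅(⟨⟨0, 1⟩, t_mem n⟩ : Hn n), (⟨⟨j, 0⟩, hj⟩ : Hn n)⁆ := by
    apply Subtype.ext
    change (x : ZwrZ) = ⁅(⟨0, 1⟩ : ZwrZ), (⟨j, 0⟩ : ZwrZ)⁆
    rw [e, comm_base]
  rw [e2]
  exact Subgroup.commutator_mem_commutator (Subgroup.mem_top _) (Subgroup.mem_top _)

theorem map_mem_comm {G G' : Type*} [Group G] [Group G'] (f : G →* G') {x : G}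
    (h : x ∈ commutator G) : f x ∈ commutator G' := by
  have h1 : commutator G ≤ (Abelianization.of.comp f).ker := Abelianization.commutator_subset_ker _
  have h2 : Abelianization.of (f x) = 1 := h1 h
  rw [← MonoidHom.mem_ker, Abelianization.ker_of] at h2
  exact h2

theorem dvd_of_iso {n m : ℕ} (hn : n ≠ 0) (e : Hn n ≃* Hn m) : n ∣ m := by
  -- the commutator of `t` and `a`
  have hc : (⟨sh 1 (Finsupp.single 0 1) - Finsupp.single 0 1, 0⟩ : ZwrZ) ∈ Hn n := by
    rw [mem_Hn, map_sub, tot_sh, sub_self]; exact dvd_zero _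
  let c : Hn n := ⟨_, hc⟩
  have hcp : ∀ N : ℕ, (c ^ N : Hn n) = ((⟨sh 1 (Finsupp.single 0 (N : ℤ)) -
      Finsupp.single 0 (N : ℤ), 0⟩ : ZwrZ) : ZwrZ) := by
    intro N
    rw [SubmonoidClass.coe_pow]
    change (⟨sh 1 (Finsupp.single 0 1) - Finsupp.single 0 1, 0⟩ : ZwrZ) ^ N = _
    rw [base_pow, smul_sub, ← map_nsmul, Finsupp.smul_single]
    simp
  have h1 : c ^ n ∈ commutator (Hn n) := by
    refine comm_Hn' (j := Finsupp.single 0 (n : ℤ)) ?_ (hcp n)
    rw [tot_single]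
  have h2 : e c ^ n ∈ commutator (Hn m) := by
    rw [← map_pow]
    exact map_mem_comm e.toMonoidHom h1
  -- in `H_m` the `m`-th power of every torsion element of the abelianization is trivial
  have h3 : e c ^ m ∈ commutator (Hn m) := by
    obtain ⟨j, hj, ej⟩ := comm_Hn h2
    rw [SubmonoidClass.coe_pow] at ej
    have hk : ((e c : Hn m) : ZwrZ).k = 0 := by
      have := congrArg ZwrZ.k ej
      rw [pow_k] at this
      rcases mul_eq_zero.1 this with h | h
      · exact absurd (by exact_mod_cast h) hn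
      · exact h
    obtain ⟨g, hg⟩ : ∃ g, ((e c : Hn m) : ZwrZ) = ⟨g, 0⟩ := ⟨_, ZwrZ.ext rfl hk⟩
    rw [hg, base_pow] at ej
    have hg0 : tot g = 0 := by
      have := congrArg tot (congrArg ZwrZ.f ej)
      simp only [map_nsmul, map_sub, tot_sh, sub_self] at this
      rw [nsmul_eq_mul] at this
      rcases mul_eq_zero.1 this with h | h
      · exact absurd (by exact_mod_cast h) hn
      · exact h
    obtain ⟨q, hq⟩ := exists_of_tot g
    rw [hg0, Finsupp.single_zero, sub_zero] at hq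
    refine comm_Hn' (j := m • q) ?_ ?_
    · rw [map_nsmul, nsmul_eq_mul]; exact dvd_mul_right _ _
    · rw [SubmonoidClass.coe_pow, hg, base_pow, hq, smul_sub, map_nsmul]
  have h4 : c ^ m ∈ commutator (Hn n) := by
    rw [← map_pow] at h3
    have := map_mem_comm e.symm.toMonoidHom h3
    change e.symm (e (c ^ m)) ∈ commutator (Hn n) at this
    rw [e.symm_apply_apply] at this
    exact this
  obtain ⟨j, hj, ej⟩ := comm_Hn h4
  rw [hcp] at ej
  have e1 := congrArg ZwrZ.f ej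
  simp only at e1
  have e2 : Finsupp.single 0 (m : ℤ) - j = 0 := by
    apply sh_fixed (m := 1) one_ne_zero
    rw [map_sub]
    have : sh 1 (Finsupp.single 0 (m : ℤ)) - sh 1 j =
      (sh 1 (Finsupp.single 0 (m : ℤ)) - Finsupp.single 0 (m : ℤ)) - (sh 1 j - j) +
        (Finsupp.single 0 (m : ℤ) - j) := by abel
    rw [this, e1, sub_self, zero_add]
  rw [sub_eq_zero] at e2
  rw [← e2, tot_single] at hj
  exact_mod_cast hj

end ZwrZ

end Pool.Agent.Y796.DG
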