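import Mathlib
import Pool.Agent.Y796.DG.A
import Pool.Agent.H476R3.ThX

set_option autoImplicit false

/-! A copy of `ℤ ≀ ℤ` in Thompson's group `F`. -/

namespace Pool.Agent.Y796.DG

open Pool.Agent.H476R3.ThF

/-- an element fixing everything outside `[1/8, 1/2]` -/
theorem a_fix {x : UI} (h : (x : ℝ) ≤ 1 / 8 ∨ 1 / 2 ≤ (x : ℝ)) : a x = x := by
  apply Subtype.ext
  rw [a_apply]
  rcases h with h | h
  · exact aF_1 h
  · exact aF_4 h

/-- the conjugates of `a` -/
noncomputable def aa (i : ℤ) : UI ≃o UI := t ^ i * a * (t ^ i)⁻¹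

theorem d_succ_coe : ∀ j : ℤ, (t ^ j) ⟨1 / 2, by norm_num, by norm_num⟩ = d (j + 1) := by
  intro j
  have h : (⟨1 / 2, by norm_num, by norm_num⟩ : UI) = d 1 := Subtype.ext d_one.symm
  rw [h, d_add, add_comm]

theorem aa_fix {i : ℤ} {x : UI} (h : x ≤ d i ∨ d (i + 1) ≤ x) : aa i x = x := by
  have hs : ((t ^ i)⁻¹ : UI ≃o UI) x = (t ^ i).symm x := rfl
  have h2 : a ((t ^ i).symm x) = (t ^ i).symm x := by
    apply a_fix
    rcases h with h | h
    · left
      have : (t ^ i).symm x ≤ d0 := by
        rw [(t ^ i).symm_apply_le]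
        exact h
      exact this
    · right
      have : (⟨1 / 2, by norm_num, by norm_num⟩ : UI) ≤ (t ^ i).symm x := by
        rw [(t ^ i).le_symm_apply, d_succ_coe]
        exact h
      exact this
  change (t ^ i) (a ((t ^ i)⁻¹ x)) = x
  rw [hs, h2]
  exact (t ^ i).apply_symm_apply x

theorem aa_mem {i : ℤ} {x : UI} (h1 : d i ≤ x) (h2 : x ≤ d (i + 1)) :
    d i ≤ aa i x ∧ aa i x ≤ d (i + 1) := by
  constructor
  · have := (aa i).monotone h1
    rw [aa_fix (Or.inl le_rfl)] at this
    exact this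
  · have := (aa i).monotone h2
    rw [aa_fix (Or.inr le_rfl)] at this
    exact this

theorem aa_comm (i j : ℤ) : aa i * aa j = aa j * aa i := by
  rcases eq_or_ne i j with rfl | hij
  · rfl
  wlog h : i < j generalizing i j with H
  · exact (H j i hij.symm (lt_of_le_of_ne (not_lt.1 h) hij.symm)).symm
  have hd : d (i + 1) ≤ d j := d_strictMono.monotone (by omega)
  ext x
  change ((aa i (aa j x) : UI) : ℝ) = aa j (aa i x)
  congr 1
  rcases le_total x (d j) with hx | hx
  · rw [aa_fix (i := j) (Or.inl hx)]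
    have : aa i x ≤ d j := by
      have := (aa i).monotone hx
      rw [aa_fix (i := i) (Or.inr hd)] at this
      exact this
    rw [aa_fix (i := j) (Or.inl this)]
  · have h1 : d j ≤ aa j x := by
      have := (aa j).monotone hx
      rw [aa_fix (i := j) (Or.inl le_rfl)] at this
      exact this
    rw [aa_fix (i := i) (Or.inr (hd.trans hx)), aa_fix (i := i) (Or.inr (hd.trans h1))]

/-- the commutative subgroup generated by the conjugates of `a` -/
noncomputable abbrev C : Subgroup (UI ≃o UI) := Subgroup.closure (Set.range aa)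

theorem C_comm : IsMulCommutative C := Subgroup.isMulCommutative_closure (by
  rintro _ ⟨i, rfl⟩ _ ⟨j, rfl⟩
  exact aa_comm i j)

noncomputable instance : CommGroup C :=
  { (inferInstance : Group C) with
    mul_comm := C_comm.is_comm.comm }

/-- the generators -/
noncomputable def aC (i : ℤ) : C := ⟨aa i, Subgroup.subset_closure ⟨i, rfl⟩⟩

/-- the homomorphism from the base -/
noncomputable def bas : (ℤ →₀ ℤ) →+ Additive C :=
  Finsupp.liftAddHom (fun i : ℤ => (zmultiplesHom (Additive C)) (Additive.ofMul (aC i)))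

/-- the element of the base group -/
noncomputable def bE (f : ℤ →₀ ℤ) : UI ≃o UI := ((bas f).toMul : C)

theorem bE_add (f g : ℤ →₀ ℤ) : bE (f + g) = bE f * bE g := by
  unfold bE
  rw [map_add]
  rfl

theorem bE_zero : bE 0 = 1 := by
  unfold bE
  rw [map_zero]
  rfl

theorem bE_single (i z : ℤ) : bE (Finsupp.single i z) = aa i ^ z := by
  unfold bE bas
  rw [Finsupp.liftAddHom_apply_single, zmultiplesHom_apply]
  rfl

theorem bE_sh (k : ℤ) (f : ℤ →₀ ℤ) : bE (sh k f) = t ^ k * bE f * (t ^ k)⁻¹ := by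
  induction f using Finsupp.induction_linear with
  | zero => rw [map_zero, bE_zero]; group
  | add f g hf hg => rw [map_add, bE_add, bE_add, hf, hg]; group
  | single i z =>
    rw [sh_single, bE_single, bE_single, ← conj_zpow]
    congr 1
    unfold aa
    rw [add_comm, zpow_add]
    group

/-- the homomorphism from `ℤ ≀ ℤ` -/
noncomputable def Phi0 : ZwrZ →* (UI ≃o UI) where
  toFun u := bE u.f * t ^ u.k
  map_one' := by
    rw [ZwrZ.one_f, ZwrZ.one_k, bE_zero, zpow_zero, mul_one]
  map_mul' u v := by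
    rw [ZwrZ.mul_f, ZwrZ.mul_k, bE_add, bE_sh, zpow_add]
    group

theorem bE_mem (f : ℤ →₀ ℤ) : bE f ∈ ThompsonF := by
  induction f using Finsupp.induction_linear with
  | zero => rw [bE_zero]; exact ThompsonF.one_mem
  | add f g hf hg => rw [bE_add]; exact ThompsonF.mul_mem hf hg
  | single i z =>
    rw [bE_single]
    have ht : t ∈ ThompsonF := t_isPL
    have ha : a ∈ ThompsonF := a_isPL
    exact ThompsonF.zpow_mem (ThompsonF.mul_mem (ThompsonF.mul_mem (ThompsonF.zpow_mem ht i) ha)
      (ThompsonF.inv_mem (ThompsonF.zpow_mem ht i))) z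

/-- Thompson's group `F`, as a type: the elements of the subgroup `ThompsonF` of the group of all
order isomorphisms of `[0, 1]`. -/
def F : Type := ThompsonF

noncomputable instance : Group F := Subgroup.toGroup ThompsonF

/-- the embedding of `ℤ ≀ ℤ` -/
noncomputable def Phi1 : ZwrZ →* ThompsonF := Phi0.codRestrict ThompsonF (fun u =>
  ThompsonF.mul_mem (bE_mem u.f) (ThompsonF.zpow_mem (show t ∈ ThompsonF from t_isPL) u.k))

/-- **The embedding of `ℤ ≀ ℤ`** -/
noncomputable def Phi : ZwrZ →* F := Phi1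

/-- the right slope of a power of `t` exists -/
theorem RS_tpow (i : ℤ) : ∀ j : ℤ, ∃ s : ℤ, RS (t ^ i) (d j) s := by
  induction i using Int.induction_on with
  | zero => intro j; exact ⟨0, by rw [zpow_zero]; exact RS_one _⟩
  | succ i ih =>
    intro j
    obtain ⟨s, hs⟩ := ih j
    obtain ⟨k, hk, -⟩ := RS_t ((t ^ (i : ℤ)) (d j))
    refine ⟨k + s, ?_⟩
    have e : t ^ ((i : ℤ) + 1) = t * t ^ (i : ℤ) := by
      rw [add_comm (i : ℤ) 1, zpow_add, zpow_one]
    rw [e]
    exact hk.mul hs
  | pred i ih =>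
    intro j
    obtain ⟨s, hs⟩ := ih j
    obtain ⟨k, hk, -⟩ := RS_t (d (j - i - 1))
    have h1 := hk.inv (d_mem _).2
    have h2 : t (d (j - i - 1)) = (t ^ (-(i : ℤ))) (d j) := by
      rw [t_d, d_add]
      congr 1; ring
    rw [h2] at h1
    refine ⟨-k + s, ?_⟩
    have e : t ^ (-(i : ℤ) - 1) = t⁻¹ * t ^ (-(i : ℤ)) := by
      rw [sub_eq_add_neg, add_comm (-(i : ℤ)) (-1), zpow_add, zpow_neg_one]
    rw [e]
    exact h1.mul hs

theorem fix_pow {g : UI ≃o UI} {x : UI} {s : ℤ} (hx : (x : ℝ) < 1) (h : g x = x) (hs : RS g x s) :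
    ∀ z : ℤ, (g ^ z) x = x ∧ RS (g ^ z) x (z * s) := by
  intro z
  induction z using Int.induction_on with
  | zero =>
    refine ⟨by rw [zpow_zero]; rfl, ?_⟩
    rw [zpow_zero, zero_mul]
    exact RS_one _
  | succ z ih =>
    rw [zpow_add_one]
    constructor
    · change (g ^ (z : ℤ)) (g x) = x
      rw [h, ih.1]
    · have : ((z : ℤ) + 1) * s = z * s + s := by ring
      rw [this]
      exact RS.mul (by rw [h]; exact ih.2) hs
  | pred z ih =>
    rw [zpow_sub_one]
    have h' : g⁻¹ x = x := by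
      change g.symm x = x
      rw [g.symm_apply_eq]
      exact h.symm
    constructor
    · change (g ^ (-(z : ℤ))) (g⁻¹ x) = x
      rw [h', ih.1]
    · have : (-(z : ℤ) - 1) * s = -z * s + -s := by ring
      rw [this]
      have hi := hs.inv hx
      rw [h] at hi
      exact RS.mul (by rw [h']; exact ih.2) hi

theorem RS_aa (i j : ℤ) : aa i (d j) = d j ∧ RS (aa i) (d j) (Finsupp.single i 1 j : ℤ) := by
  constructor
  · apply aa_fix
    rcases le_or_gt j i with h | h
    · exact Or.inl (d_strictMono.monotone h)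
    · exact Or.inr (d_strictMono.monotone h)
  · obtain ⟨s, hs⟩ := RS_tpow i (j - i)
    have e1 : (t ^ i) (d (j - i)) = d j := by
      rw [d_add]; congr 1; ring
    have h1 := hs.inv (d_mem _).2
    rw [e1] at h1
    have e2 : ((t ^ i)⁻¹ : UI ≃o UI) (d j) = d (j - i) := by
      change (t ^ i).symm (d j) = _
      rw [(t ^ i).symm_apply_eq]
      exact e1.symm
    have h2 : RS a (d (j - i)) (Finsupp.single i 1 j : ℤ) := by
      by_cases h : i = j
      · subst h
        rw [Finsupp.single_eq_same]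
        exact RS_a_0 _ (by rw [sub_self, d_zero]; rfl)
      · rw [Finsupp.single_apply, if_neg h]
        exact RS_a_far _ (d_far (by omega))
    have h3 : RS (a * (t ^ i)⁻¹) (d j) ((Finsupp.single i 1 j : ℤ) + -s) :=
      RS.mul (by rw [e2]; exact h2) h1
    have h4 : RS (t ^ i * (a * (t ^ i)⁻¹)) (d j) (s + ((Finsupp.single i 1 j : ℤ) + -s)) := by
      refine RS.mul ?_ h3
      change RS (t ^ i) (a ((t ^ i)⁻¹ (d j))) s
      rw [e2, a_d]
      exact hs
    have e5 : s + ((Finsupp.single i 1 j : ℤ) + -s) = Finsupp.single i 1 j := by ring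
    rw [e5, ← mul_assoc] at h4
    exact h4

theorem RS_bE (f : ℤ →₀ ℤ) : ∀ j : ℤ, bE f (d j) = d j ∧ RS (bE f) (d j) (f j) := by
  induction f using Finsupp.induction_linear with
  | zero =>
    intro j
    rw [bE_zero]
    exact ⟨rfl, RS_one _⟩
  | add f g hf hg =>
    intro j
    rw [bE_add]
    constructor
    · change bE f (bE g (d j)) = _
      rw [(hg j).1, (hf j).1]
    · rw [Finsupp.add_apply]
      exact RS.mul (by rw [(hg j).1]; exact (hf j).2) (hg j).2
  | single i z =>
    intro j
    rw [bE_single]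
    obtain ⟨h1, h2⟩ := RS_aa i j
    obtain ⟨h3, h4⟩ := fix_pow (d_mem j).2 h1 h2 z
    refine ⟨h3, ?_⟩
    have : (Finsupp.single i z j : ℤ) = z * (Finsupp.single i 1 j : ℤ) := by
      rw [Finsupp.single_apply, Finsupp.single_apply]
      split_ifs <;> simp
    rw [this]
    exact h4

theorem Phi_injective : Function.Injective Phi := by
  change Function.Injective Phi1
  rw [injective_iff_map_eq_one]
  intro u hu
  have h0 : bE u.f * t ^ u.k = 1 := congrArg Subtype.val hu
  have hk : u.k = 0 := by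
    have h1 : (bE u.f * t ^ u.k) (d 0) = d 0 := by rw [h0]; rfl
    change bE u.f ((t ^ u.k) (d 0)) = d 0 at h1
    rw [d_add, (RS_bE u.f _).1] at h1
    have := d_strictMono.injective h1
    omega
  rw [hk, zpow_zero, mul_one] at h0
  have hf : u.f = 0 := by
    ext j
    have h1 := (RS_bE u.f j).2
    rw [h0] at h1
    rw [h1.unique (RS_one _) (d_mem j).2]
    rfl
  exact ZwrZ.ext hf hk

end Pool.Agent.Y796.DG
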